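import Pool.Agent.K1H35.LK.Defs

set_option autoImplicit false

/-! Braids with given permutations, the groups `Gam N n`, and places (MP_5b16f0_gt, T4). -/

namespace Pool.Agent.K1H93.LK

open Pool.Agent.K1H35.LK

open scoped commutatorElement

lemma fix_ge (N : ℕ) (b : Br) (hb : b ∈ BN N) (a : ℕ) (ha : N ≤ a) : pm b a = a := by
  induction hb using Subgroup.closure_induction with
  | mem x hx =>
    obtain ⟨i, hi, rfl⟩ := hx
    rw [pm_s]
    exact Equiv.swap_apply_of_ne_of_ne (by omega) (by omega)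
  | one => rw [map_one]; rfl
  | mul x y _ _ hx hy => rw [map_mul, Equiv.Perm.mul_apply, hy, hx]
  | inv x _ hx =>
    rw [map_inv, Equiv.Perm.inv_eq_iff_eq, hx]

lemma lt_of (N : ℕ) (b : Br) (hb : b ∈ BN N) (a : ℕ) (ha : a < N) : pm b a < N := by
  by_contra h
  have h1 := fix_ge N b hb (pm b a) (by omega)
  have h2 := (pm b).injective h1
  omega

lemma fix_lt (m N : ℕ) (b : Br) (hb : b ∈ BC m N) (a : ℕ) (ha : a < m) : pm b a = a := by
  induction hb using Subgroup.closure_induction with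
  | mem x hx =>
    obtain ⟨i, hi, _, rfl⟩ := hx
    rw [pm_s]
    exact Equiv.swap_apply_of_ne_of_ne (by omega) (by omega)
  | one => rw [map_one]; rfl
  | mul x y _ _ hx hy => rw [map_mul, Equiv.Perm.mul_apply, hy, hx]
  | inv x _ hx => rw [map_inv, Equiv.Perm.inv_eq_iff_eq, hx]

lemma BC_le (m N : ℕ) : BC m N ≤ BN N := by
  apply Subgroup.closure_mono
  rintro x ⟨i, _, hi, rfl⟩
  exact ⟨i, hi, rfl⟩

lemma BN_mono (N N' : ℕ) (h : N ≤ N') : BN N ≤ BN N' := by
  apply Subgroup.closure_mono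
  rintro x ⟨i, hi, rfl⟩
  exact ⟨i, by omega, rfl⟩

lemma BC_mono (m N N' : ℕ) (h : N ≤ N') : BC m N ≤ BC m N' := by
  apply Subgroup.closure_mono
  rintro x ⟨i, hm, hi, rfl⟩
  exact ⟨i, hm, by omega, rfl⟩

lemma comm_BN_BC (m N : ℕ) (x y : Br) (hx : x ∈ BN m) (hy : y ∈ BC m N) : Commute x y := by
  induction hx using Subgroup.closure_induction with
  | mem x hx =>
    obtain ⟨i, hi, rfl⟩ := hx
    induction hy using Subgroup.closure_induction with
    | mem y hy =>
      obtain ⟨j, hj, _, rfl⟩ := hy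
      exact s_comm (by omega)
    | one => exact Commute.one_right _
    | mul x y _ _ hx hy => exact hx.mul_right hy
    | inv x _ hx => exact hx.inv_right
  | one => exact Commute.one_left _
  | mul x y _ _ hx hy => exact hx.mul_left hy
  | inv x _ hx => exact hx.inv_left

lemma up_mem (m N c t : ℕ) (hc : m ≤ c) (h : c + t < N) : up c t ∈ BC m N := by
  induction t with
  | zero => exact one_mem _
  | succ t ih =>
    exact mul_mem (ih (by omega)) (Subgroup.subset_closure ⟨c + t, by omega, by omega, rfl⟩)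

lemma pm_up (c t : ℕ) : pm (up c t) (c + t) = c := by
  induction t with
  | zero => rw [up, map_one]; rfl
  | succ t ih =>
    rw [up, map_mul, Equiv.Perm.mul_apply, pm_s, ← add_assoc, Equiv.swap_apply_right, ih]

lemma real_perm (m N : ℕ) (τ : Equiv.Perm ℕ) (h1 : ∀ a, a < m → τ a = a)
    (h2 : ∀ a, N ≤ a → τ a = a) : ∃ g ∈ BC m N, pm g = τ := by
  induction N generalizing τ with
  | zero =>
    refine ⟨1, one_mem _, ?_⟩
    rw [map_one]
    ext a
    rw [h2 a (Nat.zero_le _)]; rfl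
  | succ N ih =>
    by_cases hN : N < m
    · refine ⟨1, one_mem _, ?_⟩
      rw [map_one]
      ext a
      by_cases ha : a < m
      · rw [h1 a ha]; rfl
      · rw [h2 a (by omega)]; rfl
    · obtain ⟨c, hc⟩ : ∃ c, c = τ N := ⟨_, rfl⟩
      have hcm : m ≤ c := by
        by_contra h
        have h3 := h1 c (by omega)
        have h4 : τ c = τ N := by rw [h3, hc]
        have := τ.injective h4
        omega
      have hcN : c ≤ N := by
        by_contra h
        have h3 := h2 c (by omega)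
        have h4 : τ c = τ N := by rw [h3, hc]
        have := τ.injective h4
        omega
      obtain ⟨t, ht⟩ : ∃ t, N = c + t := ⟨N - c, by omega⟩
      have hw : up c t ∈ BC m (N + 1) := up_mem m (N + 1) c t hcm (by omega)
      have hwN : pm (up c t) N = c := by rw [ht]; exact pm_up c t
      obtain ⟨g', hg', hg''⟩ := ih ((pm (up c t))⁻¹ * τ) (by
        intro a ha
        rw [Equiv.Perm.mul_apply, h1 a ha, Equiv.Perm.inv_eq_iff_eq]
        exact (fix_lt m (N + 1) _ hw a ha).symm) (by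
        intro a ha
        rw [Equiv.Perm.mul_apply, Equiv.Perm.inv_eq_iff_eq]
        rcases Nat.eq_or_lt_of_le ha with h | h
        · rw [← h, ← hc, hwN]
        · rw [h2 a h]
          exact (fix_ge (N + 1) _ (BC_le _ _ hw) a h).symm)
      refine ⟨up c t * g', mul_mem hw (BC_mono m N (N + 1) (by omega) hg'), ?_⟩
      rw [map_mul, hg'', mul_inv_cancel_left]

lemma real_inj (N K : ℕ) (f : ℕ → ℕ) (hK : K ≤ N) (hf : ∀ j, j < K → f j < N)
    (hinj : ∀ i j, i < K → j < K → f i = f j → i = j) :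
    ∃ g ∈ BN N, ∀ j, j < K → pm g j = f j := by
  induction K with
  | zero => exact ⟨1, one_mem _, fun j hj => absurd hj (Nat.not_lt_zero j)⟩
  | succ K ih =>
    obtain ⟨g0, hg0, hg0'⟩ := ih (by omega) (fun j hj => hf j (by omega))
      (fun i j hi hj => hinj i j (by omega) (by omega))
    obtain ⟨c, hc⟩ : ∃ c, pm g0 c = f K := ⟨(pm g0)⁻¹ (f K), by simp⟩
    have hcK : K ≤ c := by
      by_contra h
      have h1 := hg0' c (by omega)
      have := hinj c K (by omega) (by omega) (by rw [← h1, hc])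
      omega
    have hcN : c < N := by
      by_contra h
      have h1 := fix_ge N g0 hg0 c (by omega)
      have := hf K (by omega)
      omega
    obtain ⟨h, hh, hh'⟩ := real_perm K N (Equiv.swap K c)
      (fun a ha => Equiv.swap_apply_of_ne_of_ne (by omega) (by omega))
      (fun a ha => Equiv.swap_apply_of_ne_of_ne (by omega) (by omega))
    refine ⟨g0 * h, mul_mem hg0 (BC_le _ _ hh), ?_⟩
    intro j hj
    rw [map_mul, Equiv.Perm.mul_apply, hh']
    rcases Nat.lt_or_ge j K with h1 | h1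
    · rw [Equiv.swap_apply_of_ne_of_ne (by omega) (by omega), hg0' j h1]
    · have : j = K := by omega
      rw [this, Equiv.swap_apply_left, hc]

lemma real_swap (m N c : ℕ) (hm : m ≤ c) (hc : c < N) : ∃ w ∈ BC m N, pm w (N - 1) = c ∧
    pm (w * s (N - 1) * w⁻¹) = Equiv.swap c N := by
  obtain ⟨t, ht⟩ : ∃ t, N - 1 = c + t := ⟨N - 1 - c, by omega⟩
  have hw : up c t ∈ BC m N := up_mem m N c t hm (by omega)
  have hwN : pm (up c t) (N - 1) = c := by rw [ht]; exact pm_up c t
  refine ⟨up c t, hw, hwN, ?_⟩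
  have h1 : pm (up c t) N = N := fix_ge N _ (BC_le _ _ hw) N le_rfl
  rw [map_mul, map_mul, map_inv, pm_s]
  have h2 : N - 1 + 1 = N := by omega
  rw [h2, ← Equiv.swap_apply_apply, hwN, h1]

theorem t_REAL : S_REAL :=
  ⟨fun N b hb a ha => fix_ge N b hb a ha, fun N b hb a ha => lt_of N b hb a ha,
    fun m N b hb a ha => fix_lt m N b hb a ha, BC_le, BN_mono, BC_mono, comm_BN_BC, real_perm,
    real_inj, real_swap⟩

lemma gam_conj (N n : ℕ) (g x : Br) (hg : g ∈ BN N) (hx : x ∈ Gam N n) :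
    g * x * g⁻¹ ∈ Gam N n := by
  induction n generalizing x with
  | zero =>
    refine Subgroup.mem_inf.2 ⟨?_, mul_mem (mul_mem hg hx.2) (inv_mem hg)⟩
    exact (inferInstance : pm.ker.Normal).conj_mem x hx.1 g
  | succ n ih =>
    have h1 : ⁅Gam N n, PN N⁆ ≤ Subgroup.comap (MulAut.conj g).toMonoidHom ⁅Gam N n, PN N⁆ := by
      rw [Subgroup.commutator_le]
      intro h hh k hk
      rw [Subgroup.mem_comap]
      have h2 : (MulAut.conj g).toMonoidHom ⁅h, k⁆ = ⁅g * h * g⁻¹, g * k * g⁻¹⁆ := by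
        change g * ⁅h, k⁆ * g⁻¹ = _
        simp only [commutatorElement_def]
        group
      rw [h2]
      apply Subgroup.commutator_mem_commutator (ih h hh)
      refine Subgroup.mem_inf.2 ⟨?_, mul_mem (mul_mem hg hk.2) (inv_mem hg)⟩
      exact (inferInstance : pm.ker.Normal).conj_mem k hk.1 g
    exact h1 hx

lemma PN_mono (N N' : ℕ) (h : N ≤ N') : PN N ≤ PN N' :=
  inf_le_inf_left _ (BN_mono N N' h)

lemma gam_mono (N N' n : ℕ) (h : N ≤ N') : Gam N n ≤ Gam N' n := by
  induction n with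
  | zero => exact PN_mono N N' h
  | succ n ih => exact Subgroup.commutator_mono ih (PN_mono N N' h)

lemma gam_succ (N n : ℕ) : Gam N (n + 1) ≤ Gam N n := by
  change ⁅Gam N n, PN N⁆ ≤ Gam N n
  rw [Subgroup.commutator_le]
  intro h hh k hk
  have h1 : ⁅h, k⁆ = h * (k * h⁻¹ * k⁻¹) := by
    rw [commutatorElement_def]; group
  rw [h1]
  exact mul_mem hh (gam_conj N n k h⁻¹ hk.2 (inv_mem hh))

lemma gam_le (N n : ℕ) : Gam N n ≤ PN N := by
  induction n with
  | zero => exact le_rfl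
  | succ n ih => exact (gam_succ N n).trans ih

lemma gam_comm (N n : ℕ) (x p : Br) (hx : x ∈ Gam N n) (hp : p ∈ PN N) :
    x * p * x⁻¹ * p⁻¹ ∈ Gam N (n + 1) := by
  have := Subgroup.commutator_mem_commutator hx hp
  rw [commutatorElement_def] at this
  exact this

theorem t_GAM : S_GAM := ⟨gam_conj, gam_mono, gam_succ, gam_le, gam_comm⟩

theorem t_PLACE : S_PLACE := by
  intro K N n γ g g' hK hγ hg hg' hj
  obtain ⟨u, hu⟩ : ∃ u, u = g'⁻¹ * g := ⟨_, rfl⟩
  have huN : u ∈ BN N := by rw [hu]; exact mul_mem (inv_mem hg') hg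
  have huj : ∀ a, a < K → pm u a = a := by
    intro a ha
    rw [hu, map_mul, map_inv, Equiv.Perm.mul_apply, Equiv.Perm.inv_eq_iff_eq, hj a ha]
  obtain ⟨w, hw, hw'⟩ := real_perm K N (pm u) huj (fun a ha => fix_ge N u huN a ha)
  obtain ⟨p, hp⟩ : ∃ p, p = u * w⁻¹ := ⟨_, rfl⟩
  have hpN : p ∈ PN N := by
    refine Subgroup.mem_inf.2 ⟨?_, ?_⟩
    · rw [hp, MonoidHom.mem_ker, map_mul, map_inv, hw', mul_inv_cancel]
    · rw [hp]; exact mul_mem huN (inv_mem (BC_le _ _ hw))
  have hγK : γ ∈ BN K := (gam_le K n hγ).2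
  have hcomm : Commute γ w := comm_BN_BC K N γ w hγK hw
  have hγN : γ⁻¹ ∈ Gam N n := inv_mem (gam_mono K N n hK hγ)
  have h1 := inv_mem (gam_comm N n γ⁻¹ p hγN hpN)
  have h2 := gam_conj N (n + 1) g' _ hg' h1
  have h3 : (g * γ * g⁻¹)⁻¹ * (g' * γ * g'⁻¹) =
      g' * (γ⁻¹ * p * γ⁻¹⁻¹ * p⁻¹)⁻¹ * g'⁻¹ := by
    have hg0 : g = g' * u := by rw [hu, mul_inv_cancel_left]
    have hup : u = p * w := by rw [hp, inv_mul_cancel_right]
    have hwγ : w * γ⁻¹ * w⁻¹ = γ⁻¹ := by
      have := (hcomm.symm.inv_right).eq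
      rw [this, mul_inv_cancel_right]
    calc (g * γ * g⁻¹)⁻¹ * (g' * γ * g'⁻¹) = g' * p * (w * γ⁻¹ * w⁻¹) * p⁻¹ * γ * g'⁻¹ := by
          rw [hg0, hup]; group
      _ = g' * (γ⁻¹ * p * γ⁻¹⁻¹ * p⁻¹)⁻¹ * g'⁻¹ := by rw [hwγ]; group
  rw [h3]
  exact h2

end Pool.Agent.K1H93.LK
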